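import Pool.Agent.Helper587.MB.Odd

set_option autoImplicit false

namespace Pool.Agent.Results.MP_ec81d5_an.EvenExponentsLinear

open Pool.Agent.Helper587.MB

/-- For every exponent `p = 4m + 2` (so `p = 2, 6, 10, 14, ...`) there is a constant `C`
such that for all `n`, `d` and every real function on the `n`-cube of degree at most `d`,
`‖Δ f‖_p ≤ C d ‖f‖_p`. -/
theorem result :
    ∀ m : ℕ, ∃ C : ℝ, 0 < C ∧
      ∀ n d : ℕ, ∀ c : Finset (Fin n) → ℝ,
        (∀ S : Finset (Fin n), d < S.card → c S = 0) →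
        (∑ x : Fin n → Bool,
            |∑ S : Finset (Fin n), (S.card : ℝ) * c S *
                ∏ i ∈ S, (if x i then (1 : ℝ) else -1)| ^ ((4 * m + 2 : ℕ) : ℝ))
          ≤ (C * (d : ℝ)) ^ ((4 * m + 2 : ℕ) : ℝ) *
            ∑ x : Fin n → Bool,
              |∑ S : Finset (Fin n), c S *
                  ∏ i ∈ S, (if x i then (1 : ℝ) else -1)| ^ ((4 * m + 2 : ℕ) : ℝ) := by
  intro m
  refine ⟨(2 * ((2 * m + 1 : ℕ) : ℝ) - 1) * (2 * (1 + 2 * 4 ^ (2 * m + 1)))
    * (16 * ((2 * m + 1 : ℕ) : ℝ)), ?_, ?_⟩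
  · push_cast
    have : (0 : ℝ) < 2 * (2 * m + 1) - 1 := by
      have : (0 : ℝ) ≤ m := Nat.cast_nonneg m
      linarith
    positivity
  · intro n d c hc
    have e1 : ∀ x : Fin n → Bool, (∑ S : Finset (Fin n), (S.card : ℝ) * c S *
        ∏ i ∈ S, (if x i then (1 : ℝ) else -1)) = fn (num c) x := by
      intro x; rfl
    have e2 : ∀ x : Fin n → Bool, (∑ S : Finset (Fin n), c S *
        ∏ i ∈ S, (if x i then (1 : ℝ) else -1)) = fn c x := by
      intro x; rfl
    simp_rw [e1, e2, Real.rpow_natCast]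
    have e3 : 4 * m + 2 = 2 * (2 * m + 1) := by ring
    rw [e3]
    have e4 : ∀ y : ℝ, |y| ^ (2 * (2 * m + 1)) = y ^ (2 * (2 * m + 1)) := by
      intro y; rw [pow_mul, pow_mul, sq_abs]
    simp_rw [e4]
    rcases Nat.eq_zero_or_pos d with hd | hd
    · subst hd
      have h0 : num c = fun _ => 0 := by
        ext S
        rcases Nat.eq_zero_or_pos S.card with h | h
        · simp [num, h]
        · simp [num, hc S h]
      rw [h0]
      simp [fn]
    · have hK : (0 : ℝ) < 16 * ((2 * m + 1 : ℕ) * d) := by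
        have : (0 : ℝ) < d := by exact_mod_cast hd
        positivity
      have := closing (n := n) (d := d) (k := 2 * m + 1) (by omega) hK (good_odd n d m) c hc
      refine this.trans (le_of_eq ?_)
      congr 2
      ring

end Pool.Agent.Results.MP_ec81d5_an.EvenExponentsLinear
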